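import Pool.Agent.Q96.NU.Stm

/-!
# Project Q96.NU, job B: perturbation to operators which attain their numerical radius
-/

set_option autoImplicit false

open Filter Topology

namespace Pool.Agent.Q275.NU

open Q96.NU

section

variable {X : Type} [NormedAddCommGroup X] [NormedSpace ℂ X]

theorem nu_set_bdd (T : X →L[ℂ] X) :
    BddAbove {r : ℝ | ∃ (x : X) (f : X →L[ℂ] ℂ), IsPi x f ∧ r = ‖f (T x)‖} := by
  refine ⟨‖T‖, ?_⟩
  rintro r ⟨x, f, h, rfl⟩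
  calc ‖f (T x)‖ ≤ ‖f‖ * ‖T x‖ := f.le_opNorm _
    _ ≤ ‖f‖ * (‖T‖ * ‖x‖) := by gcongr; exact T.le_opNorm _
    _ = ‖T‖ := by rw [h.1, h.2.1]; ring

theorem le_nu (T : X →L[ℂ] X) {x : X} {f : X →L[ℂ] ℂ} (h : IsPi x f) : ‖f (T x)‖ ≤ nu T :=
  le_csSup (nu_set_bdd T) ⟨x, f, h, rfl⟩

theorem exists_nu (T : X →L[ℂ] X) {x : X} {f : X →L[ℂ] ℂ} (h : IsPi x f) {e : ℝ} (he : 0 < e) :
    ∃ (y : X) (g : X →L[ℂ] ℂ), IsPi y g ∧ nu T - e < ‖g (T y)‖ := by
  obtain ⟨r, ⟨y, g, hyg, rfl⟩, hr⟩ := exists_lt_of_lt_csSup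
    (s := {r : ℝ | ∃ (x : X) (f : X →L[ℂ] ℂ), IsPi x f ∧ r = ‖f (T x)‖})
    ⟨_, x, f, h, rfl⟩ (show nu T - e < sSup _ from by
      change nu T - e < nu T
      linarith)
  exact ⟨y, g, hyg, hr⟩

theorem nu_le_add (S T : X →L[ℂ] X) {x : X} {f : X →L[ℂ] ℂ} (h : IsPi x f) :
    nu S ≤ nu T + ‖S - T‖ := by
  refine csSup_le ⟨_, x, f, h, rfl⟩ ?_
  rintro r ⟨y, g, hyg, rfl⟩
  have h1 : g (S y) = g (T y) + g ((S - T) y) := by
    rw [← map_add]
    congr 1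
    rw [_root_.sub_apply]
    abel
  have h2 : ‖g ((S - T) y)‖ ≤ ‖S - T‖ := by
    calc ‖g ((S - T) y)‖ ≤ ‖g‖ * ‖(S - T) y‖ := g.le_opNorm _
      _ ≤ ‖g‖ * (‖S - T‖ * ‖y‖) := by gcongr; exact (S - T).le_opNorm _
      _ = ‖S - T‖ := by rw [hyg.1, hyg.2.1]; ring
  rw [h1]
  exact (norm_add_le _ _).trans (add_le_add (le_nu T hyg) h2)

/-- uniform convexity -/
theorem close_x {c C : ℝ} (hc : 0 < c) (hQ : Quad X c C) {x y : X} {f : X →L[ℂ] ℂ}
    (h : IsPi x f) (hy : ‖y‖ ≤ 1) {d : ℝ} (hd : 1 - d ≤ (f y).re) : ‖y - x‖ ^ 2 ≤ 4 * d / c := by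
  have h1 := (hQ ((1 / 2 : ℝ) • (x + y)) ((1 / 2 : ℝ) • (x - y))).1
  have e1 : (1 / 2 : ℝ) • (x + y) + (1 / 2 : ℝ) • (x - y) = x := by
    rw [← smul_add, show x + y + (x - y) = (2 : ℝ) • x by rw [two_smul]; abel, smul_smul]
    norm_num
  have e2 : (1 / 2 : ℝ) • (x + y) - (1 / 2 : ℝ) • (x - y) = y := by
    rw [← smul_sub, show x + y - (x - y) = (2 : ℝ) • y by rw [two_smul]; abel, smul_smul]
    norm_num
  rw [e1, e2, norm_smul, norm_smul, h.1] at h1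
  have e3 : ‖(1 / 2 : ℝ)‖ = 1 / 2 := by norm_num
  rw [e3] at h1
  have h2 : 2 - d ≤ ‖x + y‖ := by
    calc 2 - d ≤ (f (x + y)).re := by
          rw [map_add, h.2.2, Complex.add_re, Complex.one_re]; linarith
      _ ≤ ‖f (x + y)‖ := Complex.re_le_norm _
      _ ≤ ‖f‖ * ‖x + y‖ := f.le_opNorm _
      _ = ‖x + y‖ := by rw [h.2.1, one_mul]
  have hy2 : ‖y‖ ^ 2 ≤ 1 := by
    have := norm_nonneg y
    nlinarith
  have h3 : 4 - 4 * d ≤ ‖x + y‖ ^ 2 := by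
    by_cases hd2 : d ≤ 2
    · have : (2 - d) ^ 2 ≤ ‖x + y‖ ^ 2 := pow_le_pow_left₀ (by linarith) h2 2
      nlinarith [sq_nonneg d]
    · have := sq_nonneg ‖x + y‖
      linarith
  rw [le_div_iff₀ hc, norm_sub_rev]
  nlinarith

/-- uniform smoothness -/
theorem close_f {c C : ℝ} (hC : 0 < C) (hQ : Quad X c C) {x : X} {f g : X →L[ℂ] ℂ}
    (h : IsPi x f) (hg : ‖g‖ ≤ 1) {d : ℝ} (hd0 : 0 < d) (hd : 1 - d ≤ (g x).re) :
    ‖g - f‖ ≤ 2 * √(C * d) := by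
  set t : ℝ := √(d / C) with ht
  have htpos : 0 < t := Real.sqrt_pos.2 (div_pos hd0 hC)
  have ht2 : t ^ 2 = d / C := Real.sq_sqrt (div_pos hd0 hC).le
  -- the bound on vectors of norm `t`
  have key : ∀ z : X, ‖z‖ = t → ((g - f) z).re ≤ 2 * d := by
    intro z hz
    have h1 := (hQ x z).2
    rw [h.1, hz, ht2] at h1
    have h1' : (‖x + z‖ ^ 2 + ‖x - z‖ ^ 2) / 2 - 1 ≤ d := by
      have e : C * (d / C) = d := by field_simp
      rw [e] at h1
      simpa using h1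
    have h2 : (g (x + z)).re ≤ ‖x + z‖ := by
      calc (g (x + z)).re ≤ ‖g (x + z)‖ := Complex.re_le_norm _
        _ ≤ ‖g‖ * ‖x + z‖ := g.le_opNorm _
        _ ≤ 1 * ‖x + z‖ := by gcongr
        _ = ‖x + z‖ := one_mul _
    have h3 : (f (x - z)).re ≤ ‖x - z‖ := by
      calc (f (x - z)).re ≤ ‖f (x - z)‖ := Complex.re_le_norm _
        _ ≤ ‖f‖ * ‖x - z‖ := f.le_opNorm _
        _ = ‖x - z‖ := by rw [h.2.1, one_mul]
    have h4 : ‖x + z‖ + ‖x - z‖ ≤ 2 + d := by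
      nlinarith [sq_nonneg (‖x + z‖ - 1), sq_nonneg (‖x - z‖ - 1)]
    rw [map_add, Complex.add_re] at h2
    rw [map_sub, h.2.2, Complex.sub_re, Complex.one_re] at h3
    rw [_root_.sub_apply, Complex.sub_re]
    linarith
  have key2 : ∀ z : X, ‖z‖ = t → ‖(g - f) z‖ ≤ 2 * d := by
    intro z hz
    by_cases h0 : (g - f) z = 0
    · rw [h0, norm_zero]; linarith
    · set w := (g - f) z with hw
      have hw0 : (‖w‖ : ℂ) ≠ 0 := by
        exact_mod_cast norm_ne_zero_iff.2 h0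
      have h1 := key ((((starRingEnd ℂ) w) / (‖w‖ : ℂ)) • z) (by
        rw [norm_smul, norm_div, RCLike.norm_conj, Complex.norm_real, norm_norm,
          div_self (norm_ne_zero_iff.2 h0), one_mul, hz])
      rw [map_smul, ← hw, smul_eq_mul] at h1
      have h2 : (starRingEnd ℂ) w / (‖w‖ : ℂ) * w = (‖w‖ : ℂ) := by
        rw [div_mul_eq_mul_div, mul_comm ((starRingEnd ℂ) w) w, Complex.mul_conj,
          Complex.normSq_eq_norm_sq]
        push_cast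
        field_simp
      rw [h2, Complex.ofReal_re] at h1
      exact h1
  have hfin : 2 * √(C * d) = 2 * d / t := by
    rw [eq_div_iff htpos.ne', ht, mul_assoc, ← Real.sqrt_mul (mul_pos hC hd0).le]
    congr 1
    rw [show C * d * (d / C) = d ^ 2 by field_simp]
    exact Real.sqrt_sq hd0.le
  rw [hfin]
  refine ContinuousLinearMap.opNorm_le_bound _ (by positivity) fun z => ?_
  by_cases hz : z = 0
  · simp [hz]
  · have hz0 : 0 < ‖z‖ := norm_pos_iff.2 hz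
    have h1 := key2 (((t / ‖z‖ : ℝ) : ℂ) • z) (by
      rw [norm_smul, Complex.norm_real, Real.norm_of_nonneg (by positivity)]
      field_simp)
    rw [map_smul, norm_smul, Complex.norm_real, Real.norm_of_nonneg (by positivity)] at h1
    rw [div_mul_eq_mul_div, div_le_iff₀ hz0] at h1
    rw [div_mul_eq_mul_div, le_div_iff₀ htpos]
    linarith

theorem tendsto_app {Y : Type} [NormedAddCommGroup Y] [NormedSpace ℂ Y] {u : ℕ → X →L[ℂ] Y}
    {v : ℕ → X} {U : X →L[ℂ] Y} {V : X} (hu : Tendsto u atTop (𝓝 U)) (hv : Tendsto v atTop (𝓝 V)) :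
    Tendsto (fun n => u n (v n)) atTop (𝓝 (U V)) :=
  ((isBoundedBilinearMap_apply (𝕜 := ℂ) (E := X) (F := Y)).continuous.tendsto (U, V)).comp
    (hu.prodMk_nhds hv)

/-- the state: an operator, a vector, a functional -/
structure St (X : Type) [NormedAddCommGroup X] [NormedSpace ℂ X] where
  T : X →L[ℂ] X
  x : X
  f : X →L[ℂ] ℂ

theorem step {c C : ℝ} (hc : 0 < c) (hC : 0 < C) (hQ : Quad X c C) {b s : ℝ} (hb : 0 < b)
    (hs : 0 < s) (n : ℕ) (a : St X) (ha : IsPi a.x a.f)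
    (hn : nu a.T - c * s ^ 4 / 8 * b * (1 / 32) ^ n ≤ ‖a.f (a.T a.x)‖) :
    ∃ a' : St X, IsPi a'.x a'.f ∧
      nu a'.T - c * s ^ 4 / 8 * b * (1 / 32) ^ (n + 1) ≤ ‖a'.f (a'.T a'.x)‖ ∧
      ‖a'.T - a.T‖ ≤ b * (1 / 2) ^ n ∧ ‖a'.x - a.x‖ ≤ s ^ 2 * (1 / 4) ^ n ∧
      ‖a'.f - a.f‖ ≤ 2 * √C * s * (1 / 2) ^ n := by
  set bn : ℝ := b * (1 / 2) ^ n with hbn
  have hbn0 : 0 < bn := by positivity
  -- the unit number
  obtain ⟨lam, hlam, hlam2⟩ : ∃ lam : ℂ, ‖lam‖ = 1 ∧ a.f (a.T a.x) = lam * ‖a.f (a.T a.x)‖ := by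
    by_cases h0 : a.f (a.T a.x) = 0
    · exact ⟨1, norm_one, by simp [h0]⟩
    · have : (‖a.f (a.T a.x)‖ : ℂ) ≠ 0 := by exact_mod_cast norm_ne_zero_iff.2 h0
      refine ⟨a.f (a.T a.x) / (‖a.f (a.T a.x)‖ : ℂ), ?_, ?_⟩
      · rw [norm_div, Complex.norm_real, norm_norm, div_self (norm_ne_zero_iff.2 h0)]
      · field_simp
  set T' : X →L[ℂ] X := a.T + (lam * bn) • (a.f.smulRight a.x) with hT'
  have happ : ∀ y, T' y = a.T y + (lam * bn) • (a.f y • a.x) := by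
    intro y
    rw [hT', _root_.add_apply, _root_.smul_apply,
      ContinuousLinearMap.smulRight_apply]
  have hval : ‖a.f (T' a.x)‖ = ‖a.f (a.T a.x)‖ + bn := by
    rw [happ, map_add, map_smul, map_smul, ha.2.2, smul_eq_mul, smul_eq_mul, hlam2]
    have : lam * (‖a.f (a.T a.x)‖ : ℂ) + lam * bn * (1 * 1) =
        lam * ((‖a.f (a.T a.x)‖ + bn : ℝ) : ℂ) := by
      push_cast; ring
    rw [this, norm_mul, hlam, one_mul, Complex.norm_real, Real.norm_of_nonneg (by positivity),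
      norm_mul, hlam, one_mul, Complex.norm_real, norm_norm]
  have hnu1 := le_nu T' ha
  rw [hval] at hnu1
  have hTn : ‖T' - a.T‖ ≤ bn := by
    rw [hT', add_sub_cancel_left, norm_smul, norm_mul, hlam, one_mul, Complex.norm_real,
      Real.norm_of_nonneg hbn0.le, ContinuousLinearMap.norm_smulRight_apply, ha.1, ha.2.1]
    simp
  set e : ℝ := c * s ^ 4 / 8 * b * (1 / 32) ^ (n + 1) with he
  have he0 : 0 < e := by positivity
  obtain ⟨y, g, hyg, hlt⟩ := exists_nu T' ha he0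
  -- rotation
  obtain ⟨z, hz, hz2⟩ : ∃ z : ℂ, ‖z‖ = 1 ∧ z * a.f y = ‖a.f y‖ := by
    by_cases h0 : a.f y = 0
    · exact ⟨1, norm_one, by simp [h0]⟩
    · have hne : (‖a.f y‖ : ℂ) ≠ 0 := by exact_mod_cast norm_ne_zero_iff.2 h0
      refine ⟨(starRingEnd ℂ) (a.f y) / (‖a.f y‖ : ℂ), ?_, ?_⟩
      · rw [norm_div, RCLike.norm_conj, Complex.norm_real, norm_norm,
          div_self (norm_ne_zero_iff.2 h0)]
      · rw [div_mul_eq_mul_div, mul_comm ((starRingEnd ℂ) _) _, Complex.mul_conj,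
          Complex.normSq_eq_norm_sq]
        push_cast
        field_simp
  have hzz : (starRingEnd ℂ) z * z = 1 := by
    rw [mul_comm, Complex.mul_conj, Complex.normSq_eq_norm_sq, hz]
    norm_num
  set x' : X := z • y with hx'
  set f' : X →L[ℂ] ℂ := ((starRingEnd ℂ) z) • g with hf'
  have hpi : IsPi x' f' := by
    refine ⟨?_, ?_, ?_⟩
    · rw [hx', norm_smul, hz, one_mul, hyg.1]
    · rw [hf', norm_smul, RCLike.norm_conj, hz, one_mul, hyg.2.1]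
    · rw [hx', hf', _root_.smul_apply, map_smul, hyg.2.2, smul_eq_mul, smul_eq_mul,
        mul_one, hzz]
  have hval' : ∀ R : X →L[ℂ] X, f' (R x') = g (R y) := by
    intro R
    rw [hx', hf', _root_.smul_apply, map_smul, map_smul, smul_eq_mul, smul_eq_mul,
      ← mul_assoc, hzz, one_mul]
  have hfx : a.f x' = (‖a.f y‖ : ℂ) := by
    rw [hx', map_smul, smul_eq_mul, hz2]
  have hfxn : ‖a.f x'‖ = ‖a.f y‖ := by rw [hfx, Complex.norm_real, norm_norm]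
  clear_value x' f'
  -- the estimate
  have hup : ‖f' (T' x')‖ ≤ nu a.T + bn * ‖a.f y‖ := by
    rw [happ, map_add, map_smul, map_smul]
    refine (norm_add_le _ _).trans (add_le_add (le_nu a.T hpi) ?_)
    rw [norm_smul, norm_smul, norm_mul, hlam, one_mul, Complex.norm_real,
      Real.norm_of_nonneg hbn0.le, hfxn]
    have h1 : ‖f' a.x‖ ≤ 1 := by
      calc ‖f' a.x‖ ≤ ‖f'‖ * ‖a.x‖ := f'.le_opNorm _
        _ = 1 := by rw [hpi.2.1, ha.1, one_mul]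
    calc bn * (‖a.f y‖ * ‖f' a.x‖) ≤ bn * (‖a.f y‖ * 1) := by gcongr
      _ = bn * ‖a.f y‖ := by ring
  rw [hval'] at hup
  have hlow : 1 - s ^ 4 * c / 4 * (1 / 16) ^ n ≤ ‖a.f y‖ := by
    have h1 : bn - c * s ^ 4 / 8 * b * (1 / 32) ^ n - e ≤ bn * ‖a.f y‖ := by linarith
    have h2 : bn * (1 - s ^ 4 * c / 4 * (1 / 16) ^ n) ≤
        bn - c * s ^ 4 / 8 * b * (1 / 32) ^ n - e := by
      have e1 : (1 / 2 : ℝ) ^ n * (1 / 16) ^ n = (1 / 32) ^ n := by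
        rw [← mul_pow]; norm_num
      have e2 : bn * (1 - s ^ 4 * c / 4 * (1 / 16) ^ n) =
          bn - c * s ^ 4 / 8 * b * (1 / 32) ^ n - c * s ^ 4 / 8 * b * (1 / 32) ^ n := by
        rw [hbn, ← e1]; ring
      rw [e2, he, pow_succ (1 / 32 : ℝ) n]
      have : 0 ≤ c * s ^ 4 / 8 * b * (1 / 32 : ℝ) ^ n := by positivity
      linarith
    exact le_of_mul_le_mul_left (h2.trans h1) hbn0
  have hclose : ‖x' - a.x‖ ≤ s ^ 2 * (1 / 4) ^ n := by
    have h1 := close_x hc hQ ha hpi.1.le (d := s ^ 4 * c / 4 * (1 / 16) ^ n) (by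
      rw [hfx, Complex.ofReal_re]; exact hlow)
    have h2 : 4 * (s ^ 4 * c / 4 * (1 / 16) ^ n) / c = (s ^ 2 * (1 / 4) ^ n) ^ 2 := by
      have e1 : ((1 / 4 : ℝ) ^ n) ^ 2 = (1 / 16) ^ n := by
        rw [← pow_mul, mul_comm, pow_mul]; norm_num
      rw [mul_pow, e1]
      field_simp
    rw [h2] at h1
    exact abs_le_of_sq_le_sq' h1 (by positivity) |>.2
  refine ⟨⟨T', x', f'⟩, hpi, ?_, hTn, hclose, ?_⟩
  · show nu T' - e ≤ ‖f' (T' x')‖
    rw [hval']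
    exact hlt.le
  · show ‖f' - a.f‖ ≤ _
    have h1 : 1 - s ^ 2 * (1 / 4) ^ n ≤ (f' a.x).re := by
      have h2 : f' a.x = 1 - f' (x' - a.x) := by
        rw [map_sub, hpi.2.2]; ring
      rw [h2, Complex.sub_re, Complex.one_re]
      have h3 : (f' (x' - a.x)).re ≤ s ^ 2 * (1 / 4) ^ n := by
        calc (f' (x' - a.x)).re ≤ ‖f' (x' - a.x)‖ := Complex.re_le_norm _
          _ ≤ ‖f'‖ * ‖x' - a.x‖ := f'.le_opNorm _
          _ = ‖x' - a.x‖ := by rw [hpi.2.1, one_mul]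
          _ ≤ _ := hclose
      linarith
    have h2 := close_f hC hQ ha hpi.2.1.le (d := s ^ 2 * (1 / 4) ^ n) (by positivity) h1
    refine h2.trans (le_of_eq ?_)
    have e1 : C * (s ^ 2 * (1 / 4) ^ n) = C * (s * (1 / 2) ^ n) ^ 2 := by
      have e1 : ((1 / 2 : ℝ) ^ n) ^ 2 = (1 / 4) ^ n := by
        rw [← pow_mul, mul_comm, pow_mul]; norm_num
      rw [mul_pow, e1]
    rw [e1, Real.sqrt_mul hC.le, Real.sqrt_sq (by positivity)]
    ring

end

theorem stmB : StmB := by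
  intro X _ _ _ c C hc hC hQ ε hε
  classical
  obtain ⟨s, hs0, hs1, hs2⟩ : ∃ s : ℝ, 0 < s ∧ s ≤ 1 ∧ 8 * (1 + √C) * s ≤ ε := by
    refine ⟨min 1 (ε / (8 * (1 + √C))), lt_min one_pos (by positivity), min_le_left _ _, ?_⟩
    have h1 : min 1 (ε / (8 * (1 + √C))) ≤ ε / (8 * (1 + √C)) := min_le_right _ _
    have h2 : 0 < 8 * (1 + √C) := by positivity
    calc 8 * (1 + √C) * min 1 (ε / (8 * (1 + √C))) ≤
        8 * (1 + √C) * (ε / (8 * (1 + √C))) := by gcongr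
      _ = ε := by field_simp
  set b : ℝ := ε / 4 with hb
  have hb0 : 0 < b := by positivity
  refine ⟨c * s ^ 4 / 8 * b, by positivity, fun T x₀ f₀ h0 hT => ?_⟩
  let P : ℕ → St X → Prop := fun n a => IsPi a.x a.f ∧
    nu a.T - c * s ^ 4 / 8 * b * (1 / 32) ^ n ≤ ‖a.f (a.T a.x)‖
  have hstep : ∀ (n : ℕ) (a : St X), P n a → ∃ a' : St X, P (n + 1) a' ∧
      ‖a'.T - a.T‖ ≤ b * (1 / 2) ^ n ∧ ‖a'.x - a.x‖ ≤ s ^ 2 * (1 / 4) ^ n ∧
      ‖a'.f - a.f‖ ≤ 2 * √C * s * (1 / 2) ^ n := by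
    intro n a ha
    obtain ⟨a', h1, h2, h3⟩ := step hc hC hQ hb0 hs0 n a ha.1 ha.2
    exact ⟨a', ⟨h1, h2⟩, h3⟩
  choose! F hF1 hF2 using hstep
  let q : ℕ → St X := fun n => Nat.rec ⟨T, x₀, f₀⟩ (fun n a => F n a) n
  have hq0 : q 0 = ⟨T, x₀, f₀⟩ := rfl
  have hqs : ∀ n, q (n + 1) = F n (q n) := fun n => rfl
  have hP : ∀ n, P n (q n) := by
    intro n
    induction n with
    | zero =>
      refine ⟨h0, ?_⟩
      rw [hq0, pow_zero, mul_one]
      exact hT.le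
    | succ n ih => rw [hqs]; exact hF1 n _ ih
  have hd : ∀ n, ‖(q (n + 1)).T - (q n).T‖ ≤ b * (1 / 2) ^ n ∧
      ‖(q (n + 1)).x - (q n).x‖ ≤ s ^ 2 * (1 / 4) ^ n ∧
      ‖(q (n + 1)).f - (q n).f‖ ≤ 2 * √C * s * (1 / 2) ^ n := by
    intro n
    rw [hqs]
    exact hF2 n _ (hP n)
  have dT : ∀ n, dist (q n).T (q (n + 1)).T ≤ b * (1 / 2) ^ n := fun n => by
    rw [dist_comm, dist_eq_norm]; exact (hd n).1
  have dx : ∀ n, dist (q n).x (q (n + 1)).x ≤ s ^ 2 * (1 / 4) ^ n := fun n => by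
    rw [dist_comm, dist_eq_norm]; exact (hd n).2.1
  have df : ∀ n, dist (q n).f (q (n + 1)).f ≤ 2 * √C * s * (1 / 2) ^ n := fun n => by
    rw [dist_comm, dist_eq_norm]; exact (hd n).2.2
  obtain ⟨S, hS⟩ := cauchySeq_tendsto_of_complete
    (cauchySeq_of_le_geometric (1 / 2) b (by norm_num) dT)
  obtain ⟨x₁, hx₁⟩ := cauchySeq_tendsto_of_complete
    (cauchySeq_of_le_geometric (1 / 4) (s ^ 2) (by norm_num) dx)
  obtain ⟨f₁, hf₁⟩ := cauchySeq_tendsto_of_complete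
    (cauchySeq_of_le_geometric (1 / 2) (2 * √C * s) (by norm_num) df)
  have bT := dist_le_of_le_geometric_of_tendsto₀ (1 / 2) b (by norm_num) dT hS
  have bx := dist_le_of_le_geometric_of_tendsto₀ (1 / 4) (s ^ 2) (by norm_num) dx hx₁
  have bf := dist_le_of_le_geometric_of_tendsto₀ (1 / 2) (2 * √C * s) (by norm_num) df hf₁
  rw [hq0] at bT bx bf
  simp only at bT bx bf
  have hpi : IsPi x₁ f₁ := by
    refine ⟨?_, ?_, ?_⟩
    · exact tendsto_nhds_unique hx₁.norm (by simp only [(hP _).1.1]; exact tendsto_const_nhds)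
    · exact tendsto_nhds_unique hf₁.norm (by simp only [(hP _).1.2.1]; exact tendsto_const_nhds)
    · exact tendsto_nhds_unique (tendsto_app hf₁ hx₁)
        (by simp only [(hP _).1.2.2]; exact tendsto_const_nhds)
  have hle := le_nu S hpi
  have hge : nu S ≤ ‖f₁ (S x₁)‖ := by
    have h1 : Tendsto (fun n => ‖(q n).f ((q n).T (q n).x)‖) atTop (𝓝 ‖f₁ (S x₁)‖) :=
      (tendsto_app hf₁ (tendsto_app hS hx₁)).norm
    have h2 : Tendsto (fun n => nu S - ‖S - (q n).T‖ - c * s ^ 4 / 8 * b * (1 / 32) ^ n) atTop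
        (𝓝 (nu S - ‖S - S‖ - c * s ^ 4 / 8 * b * 0)) :=
      (tendsto_const_nhds.sub (tendsto_const_nhds.sub hS).norm).sub
        ((tendsto_pow_atTop_nhds_zero_of_lt_one (by norm_num) (by norm_num)).const_mul _)
    rw [sub_self, norm_zero, sub_zero, mul_zero, sub_zero] at h2
    refine le_of_tendsto_of_tendsto' h2 h1 fun n => ?_
    have h3 := nu_le_add S (q n).T hpi
    have h4 := (hP n).2
    linarith
  refine ⟨S, x₁, f₁, hpi, le_antisymm hle hge, ?_, ?_, ?_⟩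
  · rw [← dist_eq_norm, dist_comm]
    refine lt_of_le_of_lt bT ?_
    rw [hb]; norm_num; linarith
  · rw [← dist_eq_norm, dist_comm]
    refine lt_of_le_of_lt bx ?_
    have h1 : s ^ 2 ≤ s := by nlinarith
    have h2 : 8 * s ≤ ε := by
      have : 0 ≤ √C * s := by positivity
      nlinarith
    rw [show (1 : ℝ) - 1 / 4 = 3 / 4 by norm_num, div_lt_iff₀ (by norm_num)]
    nlinarith
  · rw [← dist_eq_norm, dist_comm]
    refine lt_of_le_of_lt bf ?_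
    have h2 : 8 * s + 8 * (√C * s) ≤ ε := by nlinarith
    rw [show (1 : ℝ) - 1 / 2 = 1 / 2 by norm_num, div_lt_iff₀ (by norm_num)]
    nlinarith

end Pool.Agent.Q275.NU
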